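import Pool.Agent.N720.SL.Stm
import Pool.Agent.H789R2.FR.Smooth

set_option autoImplicit false

/-! CY/DEC (helper702): the kernel bound -/

namespace Pool.Agent.N702.CY.Dec

open MeasureTheory Set Metric Complex
open scoped ENNReal NNReal RealInnerProductSpace
open Pool.Agent.H789R2.FR (sg)
open Pool.Agent.N720.SL

/-- the exponential -/
noncomputable def F {n : ℕ} (y x : E n) : ℂ := Complex.exp ((⟪x, y⟫ : ℝ) * I)

lemma norm_F {n : ℕ} (y x : E n) : ‖F y x‖ = 1 := by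
  unfold F; rw [Complex.norm_exp_ofReal_mul_I]

lemma cont_F {n : ℕ} (y : E n) : Continuous (F y) := by
  unfold F; fun_prop

lemma int_F {n : ℕ} (y : E n) : Integrable (F y) (sg n) := by
  have := Pool.Agent.H789R2.FR.sg_finite n
  apply Integrable.of_bound (C := 1) (cont_F y).aestronglyMeasurable
  exact Filter.Eventually.of_forall fun x => (norm_F y x).le

lemma charFun_eq {n : ℕ} (y : E n) : charFun (sg n) y = ∫ x, F y x ∂(sg n) := by
  rw [charFun_apply]; rfl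

lemma s_decay (n : ℕ) (hn : 2 ≤ n) : ∃ C : ℝ, 0 < C ∧ ∀ y : E n, y ≠ 0 →
    ‖charFun (sg n) y‖ ≤ C * ‖y‖ ^ (-(((n : ℝ) - 1) / 2)) := by
  obtain ⟨C, hC, h⟩ := Pool.Agent.H789R2.FR.decay n hn
  refine ⟨C, hC, fun y hy => ?_⟩
  have h1 := h (-y) (neg_ne_zero.mpr hy)
  have h2 : Pool.Agent.H789R2.FR.T (fun _ : E n => (1 : ℂ)) (-y) = charFun (sg n) y := by
    rw [charFun_eq]
    unfold Pool.Agent.H789R2.FR.T F
    congr 1
    funext w
    rw [mul_one, inner_neg_left, real_inner_comm]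
    push_cast
    ring_nf
  rw [h2, norm_neg] at h1
  rw [← neg_div]
  convert h1 using 3

lemma s_mass (n : ℕ) (y : E n) : ‖charFun (sg n) y‖ ≤ (sg n).real univ := by
  have := Pool.Agent.H789R2.FR.sg_finite n
  rw [charFun_eq]
  refine (norm_integral_le_integral_norm _).trans ?_
  simp_rw [norm_F]
  simp

/-! ### the ball -/

lemma bm_prob (n : ℕ) (r : ℝ) (hr : 0 < r) : IsProbabilityMeasure (bm n r) := by
  constructor
  unfold bm
  rw [Measure.smul_apply, Measure.restrict_apply_univ, smul_eq_mul]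
  apply ENNReal.inv_mul_cancel
  · exact (measure_closedBall_pos _ _ hr).ne'
  · exact measure_closedBall_lt_top.ne

lemma bm_ae (n : ℕ) (r : ℝ) : ∀ᵐ x ∂(bm n r), ‖x‖ ≤ r := by
  unfold bm
  apply Measure.ae_smul_measure
  have h : ∀ᵐ x ∂((volume : Measure (E n)).restrict (closedBall 0 r)), x ∈ closedBall (0 : E n) r :=
    ae_restrict_mem measurableSet_closedBall
  filter_upwards [h] with x hx
  simpa using hx

lemma bm_bound (n : ℕ) (ρ : ℝ) (hρ : 0 < ρ) (t : E n) :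
    ‖1 - charFun (bm n (1 / ρ)) t‖ ≤ 2 ∧ ‖1 - charFun (bm n (1 / ρ)) t‖ ≤ ‖t‖ / ρ := by
  have hp := bm_prob n (1 / ρ) (by positivity)
  constructor
  · calc ‖1 - charFun (bm n (1 / ρ)) t‖ ≤ ‖(1 : ℂ)‖ + ‖charFun (bm n (1 / ρ)) t‖ := norm_sub_le _ _
      _ ≤ 1 + 1 := by
          rw [norm_one]
          gcongr
          exact norm_charFun_le_one t
      _ = 2 := by norm_num
  · have hint : Integrable (fun x => F t x) (bm n (1 / ρ)) := by
      apply Integrable.of_bound (C := 1) (cont_F t).aestronglyMeasurable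
      exact Filter.Eventually.of_forall fun x => (norm_F t x).le
    have huniv : (bm n (1 / ρ)).real univ = 1 := by
      unfold Measure.real
      rw [hp.measure_univ]
      rfl
    have h1 : 1 - charFun (bm n (1 / ρ)) t = ∫ x, (1 - F t x) ∂(bm n (1 / ρ)) := by
      rw [integral_sub (integrable_const _) hint, charFun_apply, integral_const, huniv, one_smul]
      rfl
    rw [h1]
    have h2 := norm_integral_le_of_norm_le_const (μ := bm n (1 / ρ)) (f := fun x => 1 - F t x)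
      (C := ‖t‖ / ρ) ?_
    · rw [huniv, mul_one] at h2
      exact h2
    · filter_upwards [bm_ae n (1 / ρ)] with x hx
      have h3 : ‖1 - F t x‖ ≤ |⟪x, t⟫| := by
        rw [norm_sub_rev]
        unfold F
        have := Real.norm_exp_I_mul_ofReal_sub_one_le (x := ⟪x, t⟫)
        rw [mul_comm]
        simpa using this
      refine h3.trans ?_
      refine (abs_real_inner_le_norm x t).trans ?_
      calc ‖x‖ * ‖t‖ ≤ (1 / ρ) * ‖t‖ := by gcongr
        _ = ‖t‖ / ρ := by ring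

/-! ### the weight -/

lemma cp_apply {n k : ℕ} (κ : E k →ₗᵢ[ℝ] E n) (x : E n) (i : Fin k) :
    (cp κ x) i = ⟪x, κ (EuclideanSpace.single i 1)⟫ := by
  unfold cp
  have h := ContinuousLinearMap.adjoint_inner_right κ.toContinuousLinearMap
    (EuclideanSpace.single i (1 : ℝ)) x
  rw [EuclideanSpace.inner_single_left] at h
  simp only [map_one, one_mul] at h
  rw [h, real_inner_comm]
  rfl

lemma cont_cp {n k : ℕ} (κ : E k →ₗᵢ[ℝ] E n) : Continuous (cp κ) := by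
  unfold cp
  exact (ContinuousLinearMap.adjoint κ.toContinuousLinearMap).continuous

lemma cont_Wr {n k : ℕ} (κ : E k →ₗᵢ[ℝ] E n) (ρ θ : ℝ) (J : ℕ) :
    Continuous (fun x => Wr ρ θ J (cp κ x)) := by
  unfold Wr
  have h := cont_cp κ
  have h2 : ∀ i : Fin k, Continuous (fun x : E n => (cp κ x) i) := fun i =>
    (EuclideanSpace.proj i).continuous.comp h
  fun_prop

lemma Wr_nonneg {k : ℕ} (ρ θ : ℝ) (hρ : 0 ≤ ρ) (J : ℕ) (s : E k) : 0 ≤ Wr ρ θ J s := by
  unfold Wr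
  have h1 : 0 ≤ ρ ^ (-(θ / 2)) := Real.rpow_nonneg hρ _
  have h2 : 0 ≤ ∑ j ∈ Finset.range J, ∑ i, (2 : ℝ) ^ (-(θ * j)) * Real.sin (2 ^ j * s i) ^ 2 := by
    apply Finset.sum_nonneg; intro j _
    apply Finset.sum_nonneg; intro i _
    positivity
  linarith

lemma F_add {n : ℕ} (t v x : E n) (c : ℝ) :
    F (t + c • v) x = F t x * Complex.exp ((c * ⟪x, v⟫ : ℝ) * I) := by
  unfold F
  rw [← Complex.exp_add, inner_add_right, inner_smul_right]
  push_cast
  ring_nf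

lemma sin_sq_F {n : ℕ} (t v x : E n) (c : ℝ) :
    ((Real.sin (c * ⟪x, v⟫) ^ 2 : ℝ) : ℂ) * F t x =
      F t x / 2 - F (t + (2 * c) • v) x / 4 - F (t + (-(2 * c)) • v) x / 4 := by
  rw [F_add, F_add]
  set a : ℝ := c * ⟪x, v⟫ with ha
  have e1 : (2 * c * ⟪x, v⟫ : ℝ) = a + a := by rw [ha]; ring
  have e2 : (-(2 * c) * ⟪x, v⟫ : ℝ) = -a + -a := by rw [ha]; ring
  rw [e1, e2]
  push_cast
  rw [Complex.sin]
  have h1 : Complex.exp ((a + a : ℂ) * I) = Complex.exp (a * I) ^ 2 := by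
    rw [← Complex.exp_nat_mul]; push_cast; ring_nf
  have h2 : Complex.exp ((-a + -a : ℂ) * I) = Complex.exp (-a * I) ^ 2 := by
    rw [← Complex.exp_nat_mul]; push_cast; ring_nf
  have h3 : Complex.exp (a * I) * Complex.exp (-a * I) = 1 := by
    rw [← Complex.exp_add]; simp
  rw [h1, h2]
  generalize Complex.exp (a * I) = p at *
  generalize Complex.exp (-a * I) = q at *
  have h4 : (q - p) ^ 2 = q ^ 2 + p ^ 2 - 2 := by linear_combination (-2) * h3
  have h5 : ((q - p) * I / 2) ^ 2 = -(q - p) ^ 2 / 4 := by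
    rw [div_pow, mul_pow, I_sq]; ring
  rw [h5, h4]
  ring

/-- the Fourier transform of the weighted measure -/
lemma charFun_W {n k : ℕ} (κ : E k →ₗᵢ[ℝ] E n) (ρ θ : ℝ) (hρ : 0 ≤ ρ) (J : ℕ) (t : E n) :
    charFun ((sg n).withDensity fun x => ENNReal.ofReal (Wr ρ θ J (cp κ x))) t =
      ((ρ ^ (-(θ / 2)) : ℝ) : ℂ) * charFun (sg n) t +
      ∑ j ∈ Finset.range J, ∑ i : Fin k, (((2 : ℝ) ^ (-(θ * j)) : ℝ) : ℂ) *
        (charFun (sg n) t / 2 -
          charFun (sg n) (t + (2 * 2 ^ j : ℝ) • κ (EuclideanSpace.single i 1)) / 4 -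
          charFun (sg n) (t + (-(2 * 2 ^ j) : ℝ) • κ (EuclideanSpace.single i 1)) / 4) := by
  rw [charFun_apply, integral_withDensity_eq_integral_toReal_smul]
  rotate_left
  · exact ENNReal.measurable_ofReal.comp (cont_Wr κ ρ θ J).measurable
  · exact Filter.Eventually.of_forall fun x => ENNReal.ofReal_lt_top
  have h1 : ∀ x : E n, (ENNReal.ofReal (Wr ρ θ J (cp κ x))).toReal •
      Complex.exp ((⟪x, t⟫ : ℝ) * I) =
      ((ρ ^ (-(θ / 2)) : ℝ) : ℂ) * F t x +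
      ∑ j ∈ Finset.range J, ∑ i : Fin k, (((2 : ℝ) ^ (-(θ * j)) : ℝ) : ℂ) *
        (F t x / 2 - F (t + (2 * 2 ^ j : ℝ) • κ (EuclideanSpace.single i 1)) x / 4 -
          F (t + (-(2 * 2 ^ j) : ℝ) • κ (EuclideanSpace.single i 1)) x / 4) := by
    intro x
    rw [ENNReal.toReal_ofReal (Wr_nonneg ρ θ hρ J _), Complex.real_smul]
    change ((Wr ρ θ J (cp κ x) : ℝ) : ℂ) * F t x = _
    unfold Wr
    push_cast
    rw [add_mul, Finset.sum_mul]
    congr 1
    apply Finset.sum_congr rfl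
    intro j _
    rw [Finset.sum_mul]
    apply Finset.sum_congr rfl
    intro i _
    have h2 := sin_sq_F t (κ (EuclideanSpace.single i (1 : ℝ))) x (2 ^ j)
    rw [← cp_apply] at h2
    rw [← h2]
    push_cast
    ring
  simp_rw [h1]
  have hI : ∀ (c : ℝ) (v : E n), Integrable (fun x => F (t + c • v) x / 4) (sg n) :=
    fun c v => (int_F _).div_const 4
  have hI2 : ∀ j ∈ Finset.range J, ∀ i : Fin k, Integrable (fun x =>
      (((2 : ℝ) ^ (-(θ * j)) : ℝ) : ℂ) *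
        (F t x / 2 - F (t + (2 * 2 ^ j : ℝ) • κ (EuclideanSpace.single i 1)) x / 4 -
          F (t + (-(2 * 2 ^ j) : ℝ) • κ (EuclideanSpace.single i 1)) x / 4)) (sg n) := by
    intro j _ i
    exact ((((int_F t).div_const 2).sub (hI _ _)).sub (hI _ _)).const_mul _
  rw [integral_add ((int_F t).const_mul _)
    (integrable_finsetSum _ fun j hj => integrable_finsetSum _ fun i _ => hI2 j hj i)]
  rw [integral_const_mul, ← charFun_eq]
  congr 1
  rw [integral_finsetSum _ fun j hj => integrable_finsetSum _ fun i _ => hI2 j hj i]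
  apply Finset.sum_congr rfl
  intro j hj
  rw [integral_finsetSum _ fun i _ => hI2 j hj i]
  apply Finset.sum_congr rfl
  intro i _
  have hs1 : ∫ x, (F t x / 2 - F (t + (2 * 2 ^ j : ℝ) • κ (EuclideanSpace.single i 1)) x / 4 -
      F (t + (-(2 * 2 ^ j) : ℝ) • κ (EuclideanSpace.single i 1)) x / 4) ∂(sg n) =
      ∫ x, (F t x / 2 - F (t + (2 * 2 ^ j : ℝ) • κ (EuclideanSpace.single i 1)) x / 4) ∂(sg n) -
      ∫ x, F (t + (-(2 * 2 ^ j) : ℝ) • κ (EuclideanSpace.single i 1)) x / 4 ∂(sg n) :=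
    integral_sub (((int_F t).div_const 2).sub (hI _ _)) (hI _ _)
  have hs2 : ∫ x, (F t x / 2 - F (t + (2 * 2 ^ j : ℝ) • κ (EuclideanSpace.single i 1)) x / 4)
      ∂(sg n) = ∫ x, F t x / 2 ∂(sg n) -
      ∫ x, F (t + (2 * 2 ^ j : ℝ) • κ (EuclideanSpace.single i 1)) x / 4 ∂(sg n) :=
    integral_sub ((int_F t).div_const 2) (hI _ _)
  rw [integral_const_mul, hs1, hs2, integral_div, integral_div, integral_div,
    ← charFun_eq, ← charFun_eq, ← charFun_eq]

/-! ### one bracket -/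

lemma one_term (n : ℕ) (hn : 2 ≤ n) : ∃ C : ℝ, 0 < C ∧ ∀ (ρ : ℝ), 1 ≤ ρ → ∀ t y : E n,
    (t ≠ 0 ∧ ‖t‖ / 2 ≤ ‖y‖) ∨ ‖t‖ ≤ 4 * Real.sqrt ρ →
    ‖charFun (sg n) y‖ * ‖1 - charFun (bm n (1 / ρ)) t‖ ^ n ≤
      C * ρ ^ (-(((n : ℝ) - 1) / 2)) := by
  obtain ⟨C₀, hC₀, hdec⟩ := s_decay n hn
  set e : ℝ := ((n : ℝ) - 1) / 2 with he
  have hn' : (2 : ℝ) ≤ n := by exact_mod_cast hn
  have he0 : 0 < e := by rw [he]; linarith
  have hS : 0 ≤ (sg n).real univ := measureReal_nonneg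
  refine ⟨C₀ * 2 ^ e * 2 ^ n + (sg n).real univ * 4 ^ n, by positivity, ?_⟩
  intro ρ hρ t y h
  have hρ0 : 0 < ρ := by linarith
  obtain ⟨hb1, hb2⟩ := bm_bound n ρ hρ0 t
  set b : ℝ := ‖1 - charFun (bm n (1 / ρ)) t‖ with hb
  have hb0 : 0 ≤ b := norm_nonneg _
  have hρe : 0 < ρ ^ (-e) := Real.rpow_pos_of_pos hρ0 _
  rcases h with ⟨ht, hy⟩ | h
  · have ht0 : 0 < ‖t‖ := norm_pos_iff.mpr ht
    have hy0 : y ≠ 0 := by
      rintro rfl
      rw [norm_zero] at hy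
      linarith
    have h1 : ‖charFun (sg n) y‖ ≤ C₀ * 2 ^ e * ‖t‖ ^ (-e) := by
      refine (hdec y hy0).trans ?_
      have h2 : ‖y‖ ^ (-e) ≤ (‖t‖ / 2) ^ (-e) :=
        Real.rpow_le_rpow_of_nonpos (by positivity) hy (by linarith)
      have h3 : (‖t‖ / 2) ^ (-e) = 2 ^ e * ‖t‖ ^ (-e) := by
        rw [Real.div_rpow ht0.le (by norm_num), Real.rpow_neg (by norm_num : (0 : ℝ) ≤ 2)]
        field_simp
      rw [h3] at h2
      calc C₀ * ‖y‖ ^ (-e) ≤ C₀ * (2 ^ e * ‖t‖ ^ (-e)) := by gcongr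
        _ = _ := by ring
    have h4 : ‖t‖ ^ (-e) * b ^ n ≤ 2 ^ n * ρ ^ (-e) := by
      rcases le_total ‖t‖ ρ with hc | hc
      · have hq0 : 0 < ‖t‖ / ρ := by positivity
        have hq1 : ‖t‖ / ρ ≤ 1 := by rw [div_le_one hρ0]; exact hc
        have h5 : b ^ n ≤ (‖t‖ / ρ) ^ e := by
          calc b ^ n ≤ (‖t‖ / ρ) ^ n := pow_le_pow_left₀ hb0 hb2 n
            _ = (‖t‖ / ρ) ^ (n : ℝ) := (Real.rpow_natCast _ _).symm
            _ ≤ (‖t‖ / ρ) ^ e := by
                apply Real.rpow_le_rpow_of_exponent_ge hq0 hq1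
                rw [he]; linarith
        have h6 : ‖t‖ ^ (-e) * (‖t‖ / ρ) ^ e = ρ ^ (-e) := by
          rw [Real.div_rpow ht0.le hρ0.le, Real.rpow_neg ht0.le, Real.rpow_neg hρ0.le]
          have : ‖t‖ ^ e ≠ 0 := (Real.rpow_pos_of_pos ht0 e).ne'
          field_simp
        calc ‖t‖ ^ (-e) * b ^ n ≤ ‖t‖ ^ (-e) * (‖t‖ / ρ) ^ e := by gcongr
          _ = ρ ^ (-e) := h6
          _ ≤ 2 ^ n * ρ ^ (-e) := by
              have : (1 : ℝ) ≤ 2 ^ n := one_le_pow₀ (by norm_num)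
              nlinarith
      · have h5 : ‖t‖ ^ (-e) ≤ ρ ^ (-e) :=
          Real.rpow_le_rpow_of_nonpos hρ0 hc (by linarith)
        calc ‖t‖ ^ (-e) * b ^ n ≤ ρ ^ (-e) * 2 ^ n := by gcongr
          _ = _ := by ring
    calc ‖charFun (sg n) y‖ * b ^ n ≤ C₀ * 2 ^ e * ‖t‖ ^ (-e) * b ^ n := by gcongr
      _ = C₀ * 2 ^ e * (‖t‖ ^ (-e) * b ^ n) := by ring
      _ ≤ C₀ * 2 ^ e * (2 ^ n * ρ ^ (-e)) := by gcongr
      _ ≤ (C₀ * 2 ^ e * 2 ^ n + (sg n).real univ * 4 ^ n) * ρ ^ (-e) := by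
          have : 0 ≤ (sg n).real univ * 4 ^ n * ρ ^ (-e) := by positivity
          linarith
  · have h1 : b ≤ 4 * ρ ^ (-(1 / 2) : ℝ) := by
      refine hb2.trans ?_
      calc ‖t‖ / ρ ≤ 4 * Real.sqrt ρ / ρ := by gcongr
        _ = 4 * ρ ^ (-(1 / 2) : ℝ) := by
            rw [Real.sqrt_eq_rpow, mul_div_assoc]
            congr 1
            nth_rw 2 [← Real.rpow_one ρ]
            rw [← Real.rpow_sub hρ0]
            norm_num
    have h2 : b ^ n ≤ 4 ^ n * ρ ^ (-e) := by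
      calc b ^ n ≤ (4 * ρ ^ (-(1 / 2) : ℝ)) ^ n := pow_le_pow_left₀ hb0 h1 n
        _ = 4 ^ n * ρ ^ (-((n : ℝ) / 2)) := by
            rw [mul_pow, ← Real.rpow_natCast (ρ ^ (-(1 / 2) : ℝ)), ← Real.rpow_mul hρ0.le]
            congr 2
            ring
        _ ≤ 4 ^ n * ρ ^ (-e) :=
            mul_le_mul_of_nonneg_left (Real.rpow_le_rpow_of_exponent_le hρ (by rw [he]; linarith))
              (by positivity)
    calc ‖charFun (sg n) y‖ * b ^ n ≤ (sg n).real univ * (4 ^ n * ρ ^ (-e)) := by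
          gcongr
          exact s_mass n y
      _ ≤ (C₀ * 2 ^ e * 2 ^ n + (sg n).real univ * 4 ^ n) * ρ ^ (-e) := by
          have : 0 ≤ C₀ * 2 ^ e * 2 ^ n * ρ ^ (-e) := by positivity
          linarith

theorem main : S_DEC := by
  intro n k hn θ hθ
  obtain ⟨C, hC, hone⟩ := one_term n hn
  refine ⟨C * (1 + k * |(1 - (2 : ℝ) ^ (-θ))⁻¹|), by positivity, ?_⟩
  intro κ ρ J hρn hadm ξ
  have hn' : (2 : ℝ) ≤ n := by exact_mod_cast hn
  have hρ1 : 1 ≤ ρ := by linarith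
  have hρ0 : 0 < ρ := by linarith
  set t : E n := (2 * Real.pi) • ξ with ht
  rw [charFun_W κ ρ θ hρ0.le J t]
  set e : ℝ := ((n : ℝ) - 1) / 2 with he
  set b : ℝ := ‖1 - charFun (bm n (1 / ρ)) t‖ ^ n with hb
  have hb0 : 0 ≤ b := by positivity
  have hρe : 0 < ρ ^ (-e) := Real.rpow_pos_of_pos hρ0 _
  -- the first term
  have h0 : ‖charFun (sg n) t‖ * b ≤ C * ρ ^ (-e) := by
    apply hone ρ hρ1 t t
    by_cases ht0 : t = 0
    · right; rw [ht0, norm_zero]; positivity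
    · left; exact ⟨ht0, by linarith [norm_nonneg t]⟩
  have hv : ∀ i : Fin k, ‖κ (EuclideanSpace.single i (1 : ℝ))‖ = 1 := by
    intro i
    rw [κ.norm_map]
    simp
  have h1 : ∀ j ∈ Finset.range J, ∀ (i : Fin k) (c : ℝ), |c| = 2 * 2 ^ j →
      ‖charFun (sg n) (t + c • κ (EuclideanSpace.single i 1))‖ * b ≤ C * ρ ^ (-e) := by
    intro j hj i c hc
    apply hone ρ hρ1 t
    have hnc : ‖c • κ (EuclideanSpace.single i (1 : ℝ))‖ = 2 * 2 ^ j := by
      rw [norm_smul, hv i, mul_one, Real.norm_eq_abs, hc]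
    rcases le_or_gt (4 * (2 : ℝ) ^ j) ‖t‖ with h2 | h2
    · left
      constructor
      · intro h3
        rw [h3, norm_zero] at h2
        have : (0 : ℝ) < 2 ^ j := by positivity
        linarith
      · have h3 : ‖t‖ - ‖c • κ (EuclideanSpace.single i (1 : ℝ))‖ ≤
            ‖t + c • κ (EuclideanSpace.single i (1 : ℝ))‖ := by
          have := norm_sub_norm_le t (-(c • κ (EuclideanSpace.single i (1 : ℝ))))
          rw [norm_neg, sub_neg_eq_add] at this
          exact this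
        rw [hnc] at h3
        linarith
    · right
      rw [Finset.mem_range] at hj
      rcases hadm with ⟨_, h3⟩ | ⟨_, _, _, h3⟩
      · omega
      · have h4 : (2 : ℝ) ^ (j + 1) ≤ 2 ^ J := pow_le_pow_right₀ (by norm_num) hj
        rw [pow_succ] at h4
        linarith
  have h2 : ∀ j ∈ Finset.range J, ∀ i : Fin k,
      ‖(((2 : ℝ) ^ (-(θ * j)) : ℝ) : ℂ) *
        (charFun (sg n) t / 2 -
          charFun (sg n) (t + (2 * 2 ^ j : ℝ) • κ (EuclideanSpace.single i 1)) / 4 -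
          charFun (sg n) (t + (-(2 * 2 ^ j) : ℝ) • κ (EuclideanSpace.single i 1)) / 4)‖ * b ≤
      (2 : ℝ) ^ (-(θ * j)) * (C * ρ ^ (-e)) := by
    intro j hj i
    have h3 := h1 j hj i (2 * 2 ^ j) (abs_of_pos (by positivity))
    have h4 := h1 j hj i (-(2 * 2 ^ j)) (by rw [abs_neg]; exact abs_of_pos (by positivity))
    rw [norm_mul, Complex.norm_real, Real.norm_of_nonneg (by positivity), mul_assoc]
    apply mul_le_mul_of_nonneg_left _ (by positivity)
    have h5 : ‖charFun (sg n) t / 2 -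
          charFun (sg n) (t + (2 * 2 ^ j : ℝ) • κ (EuclideanSpace.single i 1)) / 4 -
          charFun (sg n) (t + (-(2 * 2 ^ j) : ℝ) • κ (EuclideanSpace.single i 1)) / 4‖ ≤
        ‖charFun (sg n) t‖ / 2 +
          ‖charFun (sg n) (t + (2 * 2 ^ j : ℝ) • κ (EuclideanSpace.single i 1))‖ / 4 +
          ‖charFun (sg n) (t + (-(2 * 2 ^ j) : ℝ) • κ (EuclideanSpace.single i 1))‖ / 4 := by
      refine (norm_sub_le _ _).trans ?_
      refine (add_le_add_left (norm_sub_le _ _) _).trans ?_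
      simp
    calc _ ≤ (‖charFun (sg n) t‖ / 2 +
          ‖charFun (sg n) (t + (2 * 2 ^ j : ℝ) • κ (EuclideanSpace.single i 1))‖ / 4 +
          ‖charFun (sg n) (t + (-(2 * 2 ^ j) : ℝ) • κ (EuclideanSpace.single i 1))‖ / 4) * b := by
            gcongr
      _ ≤ C * ρ ^ (-e) := by linarith
  -- geometric series
  have hgeo : ∑ j ∈ Finset.range J, (2 : ℝ) ^ (-(θ * j)) ≤ |(1 - (2 : ℝ) ^ (-θ))⁻¹| := by
    rcases hadm with ⟨_, h3⟩ | ⟨h3, _, _, _⟩
    · rw [h3]; simp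
    · have h4 : ∀ j : ℕ, (2 : ℝ) ^ (-(θ * j)) = ((2 : ℝ) ^ (-θ)) ^ j := by
        intro j
        rw [← Real.rpow_natCast, ← Real.rpow_mul (by norm_num)]
        congr 1; ring
      simp_rw [h4]
      have h5 : (2 : ℝ) ^ (-θ) < 1 := Real.rpow_lt_one_of_one_lt_of_neg (by norm_num) (by linarith)
      have h6 : (0 : ℝ) ≤ (2 : ℝ) ^ (-θ) := by positivity
      have h7 := (summable_geometric_of_lt_one h6 h5).sum_le_tsum (Finset.range J)
        (fun i _ => by positivity)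
      rw [tsum_geometric_of_lt_one h6 h5] at h7
      exact h7.trans (le_abs_self _)
  have hρθ : ρ ^ (-(θ / 2)) ≤ 1 := Real.rpow_le_one_of_one_le_of_nonpos hρ1 (by linarith)
  have hρθ0 : 0 < ρ ^ (-(θ / 2)) := Real.rpow_pos_of_pos hρ0 _
  calc _ ≤ (‖((ρ ^ (-(θ / 2)) : ℝ) : ℂ) * charFun (sg n) t‖ +
      ∑ j ∈ Finset.range J, ∑ i : Fin k, ‖(((2 : ℝ) ^ (-(θ * j)) : ℝ) : ℂ) *
        (charFun (sg n) t / 2 -
          charFun (sg n) (t + (2 * 2 ^ j : ℝ) • κ (EuclideanSpace.single i 1)) / 4 -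
          charFun (sg n) (t + (-(2 * 2 ^ j) : ℝ) • κ (EuclideanSpace.single i 1)) / 4)‖) * b := by
        gcongr
        refine (norm_add_le _ _).trans ?_
        gcongr
        refine (norm_sum_le _ _).trans ?_
        apply Finset.sum_le_sum
        intro j _
        exact norm_sum_le _ _
    _ = ρ ^ (-(θ / 2)) * (‖charFun (sg n) t‖ * b) +
      ∑ j ∈ Finset.range J, ∑ i : Fin k, ‖(((2 : ℝ) ^ (-(θ * j)) : ℝ) : ℂ) *
        (charFun (sg n) t / 2 -
          charFun (sg n) (t + (2 * 2 ^ j : ℝ) • κ (EuclideanSpace.single i 1)) / 4 -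
          charFun (sg n) (t + (-(2 * 2 ^ j) : ℝ) • κ (EuclideanSpace.single i 1)) / 4)‖ * b := by
        rw [add_mul, Finset.sum_mul, norm_mul, Complex.norm_real, Real.norm_of_nonneg hρθ0.le]
        simp_rw [Finset.sum_mul]
        ring
    _ ≤ 1 * (C * ρ ^ (-e)) +
      ∑ j ∈ Finset.range J, ∑ i : Fin k, (2 : ℝ) ^ (-(θ * j)) * (C * ρ ^ (-e)) := by
        apply add_le_add
        · apply mul_le_mul hρθ h0 (by positivity) zero_le_one
        · apply Finset.sum_le_sum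
          intro j hj
          apply Finset.sum_le_sum
          intro i _
          exact h2 j hj i
    _ = C * ρ ^ (-e) * (1 + k * ∑ j ∈ Finset.range J, (2 : ℝ) ^ (-(θ * j))) := by
        simp only [Finset.sum_const, Finset.card_univ, Fintype.card_fin, nsmul_eq_mul]
        rw [← Finset.mul_sum, ← Finset.sum_mul]
        ring
    _ ≤ C * ρ ^ (-e) * (1 + k * |(1 - (2 : ℝ) ^ (-θ))⁻¹|) := by gcongr
    _ = C * (1 + k * |(1 - (2 : ℝ) ^ (-θ))⁻¹|) * ρ ^ (-e) := by ring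

end Pool.Agent.N702.CY.Dec
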