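import Pool.Agent.N720.SL.Stm
import Pool.Agent.N702.CY.Dec

set_option autoImplicit false

/-! CY/WB (helper702): bounds of the weight -/

namespace Pool.Agent.N702.CY.Wb

open MeasureTheory Set Metric Complex
open scoped ENNReal NNReal RealInnerProductSpace
open Pool.Agent.H789R2.FR (sg)
open Pool.Agent.N720.SL

lemma Wr_term_le {k : ℕ} (ρ θ : ℝ) (hρ : 0 ≤ ρ) (J : ℕ) (s : E k) (j : ℕ) (hj : j < J)
    (i : Fin k) : (2 : ℝ) ^ (-(θ * j)) * Real.sin (2 ^ j * s i) ^ 2 ≤ Wr ρ θ J s := by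
  unfold Wr
  have h1 : 0 ≤ ρ ^ (-(θ / 2)) := Real.rpow_nonneg hρ _
  have h2 : (2 : ℝ) ^ (-(θ * j)) * Real.sin (2 ^ j * s i) ^ 2 ≤
      ∑ i, (2 : ℝ) ^ (-(θ * j)) * Real.sin (2 ^ j * s i) ^ 2 :=
    Finset.single_le_sum (f := fun i => (2 : ℝ) ^ (-(θ * j)) * Real.sin (2 ^ j * s i) ^ 2)
      (fun i _ => by positivity) (Finset.mem_univ i)
  have h3 : ∑ i, (2 : ℝ) ^ (-(θ * j)) * Real.sin (2 ^ j * s i) ^ 2 ≤
      ∑ j ∈ Finset.range J, ∑ i, (2 : ℝ) ^ (-(θ * j)) * Real.sin (2 ^ j * s i) ^ 2 :=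
    Finset.single_le_sum (f := fun j : ℕ => ∑ i, (2 : ℝ) ^ (-(θ * j)) *
      Real.sin (2 ^ j * s i) ^ 2)
      (fun j _ => Finset.sum_nonneg fun i _ => by positivity) (Finset.mem_range.mpr hj)
  linarith

lemma le_Wr {k : ℕ} (ρ θ : ℝ) (J : ℕ) (s : E k) : ρ ^ (-(θ / 2)) ≤ Wr ρ θ J s := by
  unfold Wr
  have h2 : 0 ≤ ∑ j ∈ Finset.range J, ∑ i, (2 : ℝ) ^ (-(θ * j)) * Real.sin (2 ^ j * s i) ^ 2 := by
    apply Finset.sum_nonneg; intro j _
    apply Finset.sum_nonneg; intro i _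
    positivity
  linarith

lemma abs_coord_le {k : ℕ} (s : E k) (i : Fin k) : |s i| ≤ ‖s‖ := by
  have := EuclideanSpace.norm_eq s
  rw [this]
  apply Real.le_sqrt_of_sq_le
  rw [sq_abs]
  have h := Finset.single_le_sum (f := fun i => ‖s i‖ ^ 2) (fun i _ => by positivity)
    (Finset.mem_univ i)
  simpa using h

lemma norm_le_coord {k : ℕ} (hk : 0 < k) (s : E k) : ∃ i : Fin k, ‖s‖ ≤ k * |s i| := by
  haveI : Nonempty (Fin k) := ⟨⟨0, hk⟩⟩
  obtain ⟨i, hi⟩ := Finite.exists_max (fun i => |s i|)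
  refine ⟨i, ?_⟩
  rw [EuclideanSpace.norm_eq]
  apply Real.sqrt_le_iff.mpr
  refine ⟨by positivity, ?_⟩
  have h1 : ∑ j, ‖s j‖ ^ 2 ≤ ∑ _j : Fin k, |s i| ^ 2 := by
    apply Finset.sum_le_sum
    intro j _
    rw [Real.norm_eq_abs]
    exact pow_le_pow_left₀ (abs_nonneg _) (hi j) 2
  rw [Finset.sum_const, Finset.card_univ, Fintype.card_fin, nsmul_eq_mul] at h1
  have hk1 : (1 : ℝ) ≤ k := by exact_mod_cast hk
  have h2 : (k : ℝ) * |s i| ^ 2 ≤ (k * |s i|) ^ 2 := by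
    rw [mul_pow]
    have : (k : ℝ) ≤ (k : ℝ) ^ 2 := by nlinarith
    exact mul_le_mul_of_nonneg_right this (by positivity)
  linarith

lemma lower_coord {k : ℕ} (ρ θ : ℝ) (hθ0 : 0 < θ) (hρ : 1 ≤ ρ) (J : ℕ)
    (hJ : Real.sqrt ρ ≤ 2 ^ J) (s : E k) (i : Fin k) (hs : |s i| ≤ 1) :
    |s i| ^ θ ≤ 16 * Wr ρ θ J s := by
  have hρ0 : 0 < ρ := by linarith
  have hsq : 0 < Real.sqrt ρ := Real.sqrt_pos.mpr hρ0
  have hW0 : 0 < Wr ρ θ J s := (Real.rpow_pos_of_pos hρ0 _).trans_le (le_Wr ρ θ J s)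
  rcases le_or_gt |s i| ((2 : ℝ) ^ J)⁻¹ with h | h
  · have h1 : |s i| ≤ ρ ^ (-(1 / 2) : ℝ) := by
      refine h.trans ?_
      rw [Real.rpow_neg hρ0.le, ← Real.sqrt_eq_rpow]
      exact inv_anti₀ hsq hJ
    have h2 : |s i| ^ θ ≤ ρ ^ (-(θ / 2)) := by
      calc |s i| ^ θ ≤ (ρ ^ (-(1 / 2) : ℝ)) ^ θ :=
            Real.rpow_le_rpow (abs_nonneg _) h1 hθ0.le
        _ = ρ ^ (-(θ / 2)) := by
            rw [← Real.rpow_mul hρ0.le]; congr 1; ring
    have h3 := le_Wr ρ θ J s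
    linarith
  · -- choose j
    have hex : ∃ j : ℕ, ((2 : ℝ) ^ (j + 1))⁻¹ < |s i| := by
      refine ⟨J, lt_of_le_of_lt ?_ h⟩
      apply inv_anti₀ (by positivity)
      exact pow_le_pow_right₀ (by norm_num) (by omega)
    classical
    set j := Nat.find hex with hj
    have hj1 : ((2 : ℝ) ^ (j + 1))⁻¹ < |s i| := Nat.find_spec hex
    have hJ0 : J ≠ 0 := by
      rintro rfl
      simp at h
      linarith
    have hjJ : j < J := by
      have : j ≤ J - 1 := Nat.find_min' hex (by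
        have : J - 1 + 1 = J := by omega
        rw [this]; exact h)
      omega
    have hj2 : |s i| ≤ ((2 : ℝ) ^ j)⁻¹ := by
      rcases Nat.eq_zero_or_pos j with h0 | h0
      · rw [h0]; simpa using hs
      · have := Nat.find_min hex (m := j - 1) (by omega)
        rw [not_lt] at this
        have e : j - 1 + 1 = j := by omega
        rw [e] at this
        exact this
    have hp : (0 : ℝ) < 2 ^ j := by positivity
    set x : ℝ := 2 ^ j * |s i| with hx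
    have hx1 : 1 / 2 < x := by
      rw [pow_succ, mul_inv] at hj1
      have : (2 : ℝ) ^ j * ((2 ^ j)⁻¹ * 2⁻¹) < 2 ^ j * |s i| := by gcongr
      rw [← mul_assoc, mul_inv_cancel₀ hp.ne'] at this
      linarith
    have hx2 : x ≤ 1 := by
      have : (2 : ℝ) ^ j * |s i| ≤ 2 ^ j * (2 ^ j)⁻¹ := by gcongr
      rwa [mul_inv_cancel₀ hp.ne'] at this
    have hsin : 1 / 4 ≤ Real.sin x := by
      have h1 := Real.mul_le_sin (x := x) (by linarith) (by linarith [Real.pi_gt_three])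
      have h2 : 1 / 2 ≤ 2 / Real.pi := by
        rw [div_le_div_iff₀ (by norm_num) Real.pi_pos]
        linarith [Real.pi_le_four]
      nlinarith
    have hsin2 : 1 / 16 ≤ Real.sin (2 ^ j * s i) ^ 2 := by
      have e : Real.sin (2 ^ j * s i) ^ 2 = Real.sin x ^ 2 := by
        rw [hx]
        rcases abs_cases (s i) with ⟨h1, _⟩ | ⟨h1, _⟩
        · rw [h1]
        · rw [h1, mul_neg, Real.sin_neg, neg_sq]
      rw [e]
      nlinarith
    have h1 := Wr_term_le ρ θ hρ0.le J s j hjJ i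
    have h2 : |s i| ^ θ ≤ (2 : ℝ) ^ (-(θ * j)) := by
      calc |s i| ^ θ ≤ (((2 : ℝ) ^ j)⁻¹) ^ θ := Real.rpow_le_rpow (abs_nonneg _) hj2 hθ0.le
        _ = (2 : ℝ) ^ (-(θ * j)) := by
            rw [← Real.rpow_natCast, ← Real.rpow_neg (by norm_num), ← Real.rpow_mul (by norm_num)]
            congr 1; ring
    have h3 : (0 : ℝ) < (2 : ℝ) ^ (-(θ * j)) := by positivity
    nlinarith

lemma sum_bound (θ : ℝ) (hθ0 : 0 < θ) (hθ1 : θ ≤ 1) (r : ℝ) (hr0 : 0 < r) (hr1 : r ≤ 1)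
    (J : ℕ) : ∑ j ∈ Finset.range J, (2 : ℝ) ^ (-(θ * j)) * min 1 ((2 ^ j * r) ^ 2) ≤
      (4 + (1 - (2 : ℝ) ^ (-θ))⁻¹) * r ^ θ := by
  classical
  have hp1 : (2 : ℝ) ^ (-θ) < 1 := Real.rpow_lt_one_of_one_lt_of_neg (by norm_num) (by linarith)
  have hp0 : (0 : ℝ) < (2 : ℝ) ^ (-θ) := by positivity
  have hpj : ∀ j : ℕ, (2 : ℝ) ^ (-(θ * j)) = ((2 : ℝ) ^ (-θ)) ^ j := by
    intro j
    rw [← Real.rpow_natCast, ← Real.rpow_mul (by norm_num)]
    congr 1; ring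
  have hex : ∃ j : ℕ, 1 ≤ (2 : ℝ) ^ j * r := by
    obtain ⟨j, hj⟩ := pow_unbounded_of_one_lt (1 / r) (by norm_num : (1 : ℝ) < 2)
    refine ⟨j, ?_⟩
    rw [div_lt_iff₀ hr0] at hj
    linarith
  set j₀ := Nat.find hex with hj₀
  have hj1 : 1 ≤ (2 : ℝ) ^ j₀ * r := Nat.find_spec hex
  have hj2 : (2 : ℝ) ^ j₀ * r ≤ 2 := by
    rcases Nat.eq_zero_or_pos j₀ with h0 | h0
    · rw [h0]; simp; linarith
    · have := Nat.find_min hex (m := j₀ - 1) (by omega)
      rw [not_le] at this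
      have e : (2 : ℝ) ^ j₀ = 2 * 2 ^ (j₀ - 1) := by
        rw [← pow_succ']; congr 1; omega
      rw [e]; nlinarith
  -- split
  have hsplit : ∑ j ∈ Finset.range J, (2 : ℝ) ^ (-(θ * j)) * min 1 ((2 ^ j * r) ^ 2) ≤
      ∑ j ∈ Finset.range j₀, (2 : ℝ) ^ (-(θ * j)) * (2 ^ j * r) ^ 2 +
        ∑ j ∈ Finset.Ico j₀ J, (2 : ℝ) ^ (-(θ * j)) := by
    have h1 : ∑ j ∈ Finset.range J, (2 : ℝ) ^ (-(θ * j)) * min 1 ((2 ^ j * r) ^ 2) ≤
        ∑ j ∈ Finset.range j₀ ∪ Finset.Ico j₀ J,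
          (2 : ℝ) ^ (-(θ * j)) * min 1 ((2 ^ j * r) ^ 2) := by
      apply Finset.sum_le_sum_of_subset_of_nonneg
      · intro j hj
        rw [Finset.mem_range] at hj
        rw [Finset.mem_union, Finset.mem_range, Finset.mem_Ico]
        omega
      · intro j _ _
        positivity
    rw [Finset.sum_union] at h1
    · refine h1.trans ?_
      apply add_le_add
      · apply Finset.sum_le_sum
        intro j _
        gcongr
        exact min_le_right _ _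
      · apply Finset.sum_le_sum
        intro j _
        have : (2 : ℝ) ^ (-(θ * j)) * min 1 ((2 ^ j * r) ^ 2) ≤ (2 : ℝ) ^ (-(θ * j)) * 1 := by
          gcongr
          exact min_le_left _ _
        linarith
    · rw [Finset.disjoint_left]
      intro j hj hj'
      rw [Finset.mem_range] at hj
      rw [Finset.mem_Ico] at hj'
      omega
  refine hsplit.trans ?_
  rw [add_mul]
  apply add_le_add
  · -- first sum
    set q : ℝ := (2 : ℝ) ^ (2 - θ) with hq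
    have hq2 : 2 ≤ q := by
      calc (2 : ℝ) = 2 ^ (1 : ℝ) := (Real.rpow_one 2).symm
        _ ≤ 2 ^ (2 - θ) := Real.rpow_le_rpow_of_exponent_le (by norm_num) (by linarith)
    have h1 : ∀ j : ℕ, (2 : ℝ) ^ (-(θ * j)) * (2 ^ j * r) ^ 2 = r ^ 2 * q ^ j := by
      intro j
      have e : q ^ j = (2 : ℝ) ^ (-(θ * j)) * (2 ^ j) ^ 2 := by
        rw [hq, ← Real.rpow_natCast, ← Real.rpow_mul (by norm_num), ← pow_mul,
          ← Real.rpow_natCast 2 (j * 2), ← Real.rpow_add (by norm_num)]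
        congr 1; push_cast; ring
      rw [e]; ring
    simp_rw [h1]
    rw [← Finset.mul_sum, geom_sum_eq (by linarith)]
    have h2 : (q ^ j₀ - 1) / (q - 1) ≤ q ^ j₀ := by
      rw [div_le_iff₀ (by linarith)]
      have : 0 < q ^ j₀ := by positivity
      nlinarith
    have h3 : q ^ j₀ = ((2 : ℝ) ^ j₀) ^ (2 - θ) := by
      rw [hq, ← Real.rpow_natCast, ← Real.rpow_mul (by norm_num), ← Real.rpow_natCast,
        ← Real.rpow_mul (by norm_num)]
      congr 1; ring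
    have h4 : r ^ 2 * q ^ j₀ ≤ 4 * r ^ θ := by
      rw [h3]
      have e1 : r ^ 2 = r ^ (2 - θ) * r ^ θ := by
        rw [← Real.rpow_add hr0]
        norm_num
      have e2 : r ^ (2 - θ) * ((2 : ℝ) ^ j₀) ^ (2 - θ) = ((2 : ℝ) ^ j₀ * r) ^ (2 - θ) := by
        rw [Real.mul_rpow (by positivity) hr0.le]; ring
      have e3 : ((2 : ℝ) ^ j₀ * r) ^ (2 - θ) ≤ 4 := by
        calc ((2 : ℝ) ^ j₀ * r) ^ (2 - θ) ≤ 2 ^ (2 - θ) := by
              apply Real.rpow_le_rpow (by positivity) hj2 (by linarith)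
          _ ≤ 2 ^ (2 : ℝ) := Real.rpow_le_rpow_of_exponent_le (by norm_num) (by linarith)
          _ = 4 := by norm_num
      have e4 : 0 < r ^ θ := Real.rpow_pos_of_pos hr0 _
      calc r ^ 2 * ((2 : ℝ) ^ j₀) ^ (2 - θ) =
            (r ^ (2 - θ) * ((2 : ℝ) ^ j₀) ^ (2 - θ)) * r ^ θ := by rw [e1]; ring
        _ ≤ 4 * r ^ θ := by rw [e2]; gcongr
    have h5 : r ^ 2 * ((q ^ j₀ - 1) / (q - 1)) ≤ r ^ 2 * q ^ j₀ := by gcongr
    linarith
  · -- second sum
    simp_rw [hpj]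
    refine (geom_sum_Ico_le_of_lt_one hp0.le hp1).trans ?_
    rw [div_eq_mul_inv, mul_comm]
    have h1 : ((2 : ℝ) ^ (-θ)) ^ j₀ ≤ r ^ θ := by
      rw [← hpj]
      have e : (2 : ℝ) ^ (-(θ * j₀)) = (((2 : ℝ) ^ j₀)⁻¹) ^ θ := by
        rw [← Real.rpow_natCast, ← Real.rpow_neg (by norm_num), ← Real.rpow_mul (by norm_num)]
        congr 1; ring
      rw [e]
      apply Real.rpow_le_rpow (by positivity) _ hθ0.le
      rw [inv_le_iff_one_le_mul₀ (by positivity)]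
      linarith
    have h2 : 0 ≤ (1 - (2 : ℝ) ^ (-θ))⁻¹ := by
      apply inv_nonneg.mpr; linarith
    gcongr

theorem wb : S_WB := by
  intro k θ hθ0 hθ1
  refine ⟨1 + 16 * k + k * (4 + |(1 - (2 : ℝ) ^ (-θ))⁻¹|), by positivity, ?_⟩
  intro ρ J hρ hadm s hs
  have hρ0 : 0 < ρ := by linarith
  have hk0 : (0 : ℝ) ≤ k := Nat.cast_nonneg k
  have habs : 0 ≤ |(1 - (2 : ℝ) ^ (-θ))⁻¹| := abs_nonneg _
  rcases hadm with ⟨h1, h2⟩ | ⟨h1, _, h2, h3⟩
  · subst h1 h2
    have hW : Wr ρ 0 0 s = 1 := by unfold Wr; simp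
    rw [hW]
    simp only [Real.rpow_zero]
    constructor <;> nlinarith
  · have hW0 : 0 < Wr ρ θ J s := (Real.rpow_pos_of_pos hρ0 _).trans_le (le_Wr ρ θ J s)
    constructor
    · rcases Nat.eq_zero_or_pos k with hk | hk
      · subst hk
        have : s = 0 := Subsingleton.elim _ _
        rw [this, norm_zero, Real.zero_rpow h1.ne']
        rw [this] at hW0
        have : (0 : ℝ) ≤ 1 + 16 * ((0 : ℕ) : ℝ) + ((0 : ℕ) : ℝ) *
          (4 + |(1 - (2 : ℝ) ^ (-θ))⁻¹|) := by positivity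
        positivity
      · obtain ⟨i, hi⟩ := norm_le_coord hk s
        have h4 := lower_coord ρ θ h1 hρ J h2 s i ((abs_coord_le s i).trans hs)
        have hk1 : (1 : ℝ) ≤ k := by exact_mod_cast hk
        have h5 : ‖s‖ ^ θ ≤ k * |s i| ^ θ := by
          calc ‖s‖ ^ θ ≤ (k * |s i|) ^ θ := Real.rpow_le_rpow (norm_nonneg _) hi hθ0
            _ = (k : ℝ) ^ θ * |s i| ^ θ := Real.mul_rpow hk0 (abs_nonneg _)
            _ ≤ k * |s i| ^ θ := by
                have : (k : ℝ) ^ θ ≤ k := by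
                  calc (k : ℝ) ^ θ ≤ (k : ℝ) ^ (1 : ℝ) :=
                        Real.rpow_le_rpow_of_exponent_le hk1 hθ1
                    _ = k := Real.rpow_one _
                have h6 : 0 ≤ |s i| ^ θ := by positivity
                gcongr
        calc ‖s‖ ^ θ ≤ k * |s i| ^ θ := h5
          _ ≤ k * (16 * Wr ρ θ J s) := by gcongr
          _ ≤ (1 + 16 * k + k * (4 + |(1 - (2 : ℝ) ^ (-θ))⁻¹|)) * Wr ρ θ J s := by
              have : 0 ≤ (1 + k * (4 + |(1 - (2 : ℝ) ^ (-θ))⁻¹|)) * Wr ρ θ J s := by positivity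
              linarith
    · -- upper bound
      set R : ℝ := (‖s‖ + ρ ^ (-(1 / 2) : ℝ)) ^ θ with hR
      have hρh : 0 < ρ ^ (-(1 / 2) : ℝ) := Real.rpow_pos_of_pos hρ0 _
      have h4 : ρ ^ (-(θ / 2)) ≤ R := by
        calc ρ ^ (-(θ / 2)) = (ρ ^ (-(1 / 2) : ℝ)) ^ θ := by
              rw [← Real.rpow_mul hρ0.le]; congr 1; ring
          _ ≤ R := Real.rpow_le_rpow hρh.le (by linarith [norm_nonneg s]) hθ0
      have h5 : ‖s‖ ^ θ ≤ R := Real.rpow_le_rpow (norm_nonneg _) (by linarith) hθ0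
      have hR0 : 0 ≤ R := by positivity
      have h6 : ∑ j ∈ Finset.range J, ∑ i : Fin k, (2 : ℝ) ^ (-(θ * j)) *
          Real.sin (2 ^ j * s i) ^ 2 ≤ k * (4 + |(1 - (2 : ℝ) ^ (-θ))⁻¹|) * R := by
        rcases (norm_nonneg s).eq_or_lt with h0 | h0
        · have : s = 0 := norm_eq_zero.mp h0.symm
          rw [this]
          simp
          positivity
        · have h7 := sum_bound θ h1 hθ1 ‖s‖ h0 hs J
          have h8 : ∑ j ∈ Finset.range J, ∑ i : Fin k, (2 : ℝ) ^ (-(θ * j)) *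
              Real.sin (2 ^ j * s i) ^ 2 ≤ ∑ j ∈ Finset.range J, ∑ _i : Fin k,
              (2 : ℝ) ^ (-(θ * j)) * min 1 ((2 ^ j * ‖s‖) ^ 2) := by
            apply Finset.sum_le_sum; intro j _
            apply Finset.sum_le_sum; intro i _
            gcongr
            apply le_min
            · exact Real.sin_sq_le_one _
            · have h9 : |Real.sin (2 ^ j * s i)| ≤ 2 ^ j * ‖s‖ := by
                refine (Real.abs_sin_le_abs).trans ?_
                rw [abs_mul, abs_of_pos (by positivity : (0 : ℝ) < 2 ^ j)]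
                gcongr
                exact abs_coord_le s i
              rw [← sq_abs]
              exact pow_le_pow_left₀ (abs_nonneg _) h9 2
          refine h8.trans ?_
          simp only [Finset.sum_const, Finset.card_univ, Fintype.card_fin, nsmul_eq_mul]
          rw [← Finset.mul_sum]
          calc (k : ℝ) * ∑ j ∈ Finset.range J, (2 : ℝ) ^ (-(θ * j)) * min 1 ((2 ^ j * ‖s‖) ^ 2)
              ≤ k * ((4 + (1 - (2 : ℝ) ^ (-θ))⁻¹) * ‖s‖ ^ θ) := by gcongr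
            _ ≤ k * ((4 + |(1 - (2 : ℝ) ^ (-θ))⁻¹|) * R) := by
                gcongr
                exact le_abs_self _
            _ = _ := by ring
      have h7 : Wr ρ θ J s ≤ R + k * (4 + |(1 - (2 : ℝ) ^ (-θ))⁻¹|) * R := by
        unfold Wr
        linarith
      have h8 : 0 ≤ 16 * k * R := by positivity
      linarith

end Pool.Agent.N702.CY.Wb
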