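import Pool.Agent.N720.SL.Stm
import Pool.Agent.N702.CY.Wb

set_option autoImplicit false

/-! CY/HOL (helper702): Hoelder's inequality with the weight -/

namespace Pool.Agent.N702.CY.Hol

open MeasureTheory Set Metric Complex
open scoped ENNReal NNReal RealInnerProductSpace
open Pool.Agent.H789R2.FR (sg)
open Pool.Agent.N720.SL

section geom

variable {m k : ℕ} (ι : E m →ₗᵢ[ℝ] E (m + k)) (κ : E k →ₗᵢ[ℝ] E (m + k))

/-- the orthonormal family -/
noncomputable def fam : Fin m ⊕ Fin k → E (m + k) :=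
  Sum.elim (fun i => ι (EuclideanSpace.single i 1)) (fun j => κ (EuclideanSpace.single j 1))

lemma fam_orth (h : ∀ y w, ⟪ι y, κ w⟫ = 0) : Orthonormal ℝ (fam ι κ) := by
  classical
  rw [orthonormal_iff_ite]
  rintro (i | i) (j | j)
  · simp only [fam, Sum.elim_inl]
    rw [ι.inner_map_map, EuclideanSpace.inner_single_left]
    simp [EuclideanSpace.single_apply]
  · simp only [fam, Sum.elim_inl, Sum.elim_inr]
    rw [h]; simp
  · simp only [fam, Sum.elim_inl, Sum.elim_inr]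
    rw [real_inner_comm, h]; simp
  · simp only [fam, Sum.elim_inr]
    rw [κ.inner_map_map, EuclideanSpace.inner_single_left]
    simp [EuclideanSpace.single_apply]

/-- the orthonormal basis -/
noncomputable def bas (h : ∀ y w, ⟪ι y, κ w⟫ = 0) :
    OrthonormalBasis (Fin m ⊕ Fin k) ℝ (E (m + k)) :=
  OrthonormalBasis.mk (fam_orth ι κ h) (by
    rw [(fam_orth ι κ h).linearIndependent.span_eq_top_of_card_eq_finrank' (by simp)])

lemma bas_apply (h : ∀ y w, ⟪ι y, κ w⟫ = 0) (i : Fin m ⊕ Fin k) :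
    bas ι κ h i = fam ι κ i := by
  unfold bas; rw [OrthonormalBasis.coe_mk]

lemma cont_cp : Continuous (cp κ) := Dec.cont_cp κ

lemma vol_slab (h : ∀ y w, ⟪ι y, κ w⟫ = 0) (d : ℝ) (hd : 0 ≤ d) :
    volume {y : E (m + k) | ‖y‖ ≤ 1 ∧ ‖cp κ y‖ ≤ d} ≤ ENNReal.ofReal (2 ^ (m + k) * d ^ k) := by
  set a : Fin m ⊕ Fin k → ℝ := Sum.elim (fun _ => 1) (fun _ => d) with ha
  set box : Set (Fin m ⊕ Fin k → ℝ) := Set.pi univ fun i => Icc (-a i) (a i) with hbox
  have hmp : MeasurePreserving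
      (fun y : E (m + k) => WithLp.ofLp ((bas ι κ h).repr y)) volume volume :=
    (PiLp.volume_preserving_ofLp (Fin m ⊕ Fin k)).comp (bas ι κ h).measurePreserving_repr
  have hboxm : MeasurableSet box := MeasurableSet.univ_pi fun i => measurableSet_Icc
  have hsub : {y : E (m + k) | ‖y‖ ≤ 1 ∧ ‖cp κ y‖ ≤ d} ⊆
      (fun y : E (m + k) => WithLp.ofLp ((bas ι κ h).repr y)) ⁻¹' box := by
    rintro y ⟨hy1, hy2⟩
    rw [mem_preimage, hbox, mem_univ_pi]
    rintro (i | j)
    · rw [mem_Icc, ← abs_le]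
      have h1 : WithLp.ofLp ((bas ι κ h).repr y) (Sum.inl i) =
          ⟪bas ι κ h (Sum.inl i), y⟫ := (bas ι κ h).repr_apply_apply y _
      rw [h1]
      refine (abs_real_inner_le_norm _ _).trans ?_
      rw [(bas ι κ h).orthonormal.1, one_mul]
      exact hy1
    · rw [mem_Icc, ← abs_le]
      have h1 : WithLp.ofLp ((bas ι κ h).repr y) (Sum.inr j) =
          ⟪bas ι κ h (Sum.inr j), y⟫ := (bas ι κ h).repr_apply_apply y _
      have h2 : ⟪bas ι κ h (Sum.inr j), y⟫ = (cp κ y) j := by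
        rw [bas_apply, Dec.cp_apply, real_inner_comm]; rfl
      rw [h1, h2]
      exact (Wb.abs_coord_le _ _).trans hy2
  calc volume {y : E (m + k) | ‖y‖ ≤ 1 ∧ ‖cp κ y‖ ≤ d}
      ≤ volume ((fun y : E (m + k) => WithLp.ofLp ((bas ι κ h).repr y)) ⁻¹' box) :=
        measure_mono hsub
    _ = volume box := hmp.measure_preimage hboxm.nullMeasurableSet
    _ = ∏ i, ENNReal.ofReal (a i - -a i) := by
        rw [hbox, volume_pi_pi]
        simp_rw [Real.volume_Icc]
    _ = ENNReal.ofReal (∏ i, (a i - -a i)) := by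
        rw [ENNReal.ofReal_prod_of_nonneg]
        rintro (i | j) _
        · simp [ha]
        · simp [ha]; linarith
    _ = ENNReal.ofReal (2 ^ (m + k) * d ^ k) := by
        congr 1
        rw [Fintype.prod_sum_type]
        simp only [ha, Sum.elim_inl, Sum.elim_inr, Finset.prod_const, Finset.card_univ,
          Fintype.card_fin]
        have e1 : (1 : ℝ) - -1 = 2 := by norm_num
        have e2 : d - -d = 2 * d := by ring
        rw [e1, e2, mul_pow, pow_add]
        ring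

lemma sg_slab (h : ∀ y w, ⟪ι y, κ w⟫ = 0) (hmk : 0 < m + k) (d : ℝ) (hd : 0 ≤ d) :
    sg (m + k) {x | ‖cp κ x‖ ≤ d} ≤ ENNReal.ofReal (4 ^ (m + k) * d ^ k) := by
  set S : Set (E (m + k)) := {y | ‖y‖ ≤ 1 ∧ ‖cp κ y‖ ≤ d} with hS
  have hc := cont_cp κ
  have hSm : MeasurableSet S :=
    (isClosed_le continuous_norm continuous_const).measurableSet.inter
      (isClosed_le hc.norm continuous_const).measurableSet
  have hTm : MeasurableSet {x : E (m + k) | ‖cp κ x‖ ≤ d} :=
    (isClosed_le hc.norm continuous_const).measurableSet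
  have hpol := Pool.Agent.H789R2.FR.polar hmk (S.indicator 1) (measurable_one.indicator hSm)
  rw [lintegral_indicator_one hSm] at hpol
  have hlow : ∫⁻ w, ({x : E (m + k) | ‖cp κ x‖ ≤ d}.indicator
      (fun _ => ENNReal.ofReal ((1 / 2) ^ (m + k))) w) ∂(sg (m + k)) ≤
      ∫⁻ w, (∫⁻ r in Ioi (0 : ℝ), ENNReal.ofReal (r ^ ((m + k) - 1)) * S.indicator 1 (r • w))
        ∂(sg (m + k)) := by
    apply lintegral_mono_ae
    filter_upwards [Pool.Agent.H789R2.FR.sg_ae (m + k)] with w hw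
    by_cases hwd : ‖cp κ w‖ ≤ d
    · rw [indicator_of_mem (by exact hwd)]
      calc ENNReal.ofReal ((1 / 2) ^ (m + k))
          = ∫⁻ r in Ioc (1 / 2 : ℝ) 1, ENNReal.ofReal ((1 / 2) ^ ((m + k) - 1)) := by
            rw [setLIntegral_const, Real.volume_Ioc, ← ENNReal.ofReal_mul (by positivity)]
            congr 1
            have : m + k = ((m + k) - 1) + 1 := by omega
            conv_lhs => rw [this]
            rw [pow_succ]; norm_num
        _ ≤ ∫⁻ r in Ioc (1 / 2 : ℝ) 1, ENNReal.ofReal (r ^ ((m + k) - 1)) * S.indicator 1 (r • w) := by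
            apply setLIntegral_mono' measurableSet_Ioc
            intro r hr
            have hr0 : 0 < r := by linarith [hr.1]
            have hmem : r • w ∈ S := by
              constructor
              · rw [norm_smul, hw, mul_one, Real.norm_eq_abs, abs_of_pos hr0]; exact hr.2
              · have : cp κ (r • w) = r • cp κ w := by
                  unfold cp; rw [map_smul]
                rw [this, norm_smul, Real.norm_eq_abs, abs_of_pos hr0]
                calc r * ‖cp κ w‖ ≤ 1 * d := by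
                      apply mul_le_mul hr.2 hwd (norm_nonneg _) zero_le_one
                  _ = d := one_mul d
            rw [indicator_of_mem hmem, Pi.one_apply, mul_one]
            apply ENNReal.ofReal_le_ofReal
            exact pow_le_pow_left₀ (by norm_num) hr.1.le _
        _ ≤ ∫⁻ r in Ioi (0 : ℝ), ENNReal.ofReal (r ^ ((m + k) - 1)) * S.indicator 1 (r • w) := by
            apply lintegral_mono_set
            intro r hr
            exact lt_trans (by norm_num) hr.1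
    · rw [indicator_of_notMem (by exact hwd)]
      exact zero_le'
  rw [← hpol, lintegral_indicator_const hTm] at hlow
  have hvol := vol_slab ι κ h d hd
  have h1 : ENNReal.ofReal ((1 / 2) ^ (m + k)) * sg (m + k) {x : E (m + k) | ‖cp κ x‖ ≤ d} ≤
      ENNReal.ofReal (2 ^ (m + k) * d ^ k) := hlow.trans hvol
  have h2 : ENNReal.ofReal (2 ^ (m + k)) * ENNReal.ofReal ((1 / 2) ^ (m + k)) = 1 := by
    rw [← ENNReal.ofReal_mul (by positivity), ← mul_pow]
    norm_num
  calc sg (m + k) {x : E (m + k) | ‖cp κ x‖ ≤ d}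
      = ENNReal.ofReal (2 ^ (m + k)) * (ENNReal.ofReal ((1 / 2) ^ (m + k)) *
          sg (m + k) {x : E (m + k) | ‖cp κ x‖ ≤ d}) := by rw [← mul_assoc, h2, one_mul]
    _ ≤ ENNReal.ofReal (2 ^ (m + k)) * ENNReal.ofReal (2 ^ (m + k) * d ^ k) := by gcongr
    _ = ENNReal.ofReal (4 ^ (m + k) * d ^ k) := by
        rw [← ENNReal.ofReal_mul (by positivity), ← mul_assoc, ← mul_pow]
        norm_num

lemma norm_cp_le (x : E (m + k)) : ‖cp κ x‖ ≤ ‖x‖ := by
  have h1 : ‖cp κ x‖ ^ 2 = ⟪x, κ (cp κ x)⟫ := by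
    rw [← real_inner_self_eq_norm_sq]
    unfold cp
    rw [ContinuousLinearMap.adjoint_inner_right]
    rw [real_inner_comm]
    rfl
  have h2 : ⟪x, κ (cp κ x)⟫ ≤ ‖x‖ * ‖cp κ x‖ := by
    have := real_inner_le_norm x (κ (cp κ x))
    rwa [κ.norm_map] at this
  rcases (norm_nonneg (cp κ x)).eq_or_lt with h0 | h0
  · rw [← h0]; exact norm_nonneg _
  · have h3 : ‖cp κ x‖ * ‖cp κ x‖ ≤ ‖x‖ * ‖cp κ x‖ := by nlinarith
    exact le_of_mul_le_mul_right h3 h0

end geom

/-- layers -/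
lemma layer (η r : ℝ) (hη : 0 ≤ η) (hr0 : 0 ≤ r) (hr1 : r ≤ 1) :
    (ENNReal.ofReal r) ^ (-η) ≤
      ∑' j : ℕ, ENNReal.ofReal (2 ^ (η * (j + 1))) * (Iic (((2 : ℝ) ^ j)⁻¹)).indicator 1 r := by
  rcases hr0.eq_or_lt with h0 | h0
  · have : ∀ j : ℕ, (1 : ℝ≥0∞) ≤
        ENNReal.ofReal (2 ^ (η * (j + 1))) * (Iic (((2 : ℝ) ^ j)⁻¹)).indicator 1 r := by
      intro j
      rw [indicator_of_mem (by rw [mem_Iic, ← h0]; positivity), Pi.one_apply, mul_one]
      rw [ENNReal.one_le_ofReal]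
      exact Real.one_le_rpow (by norm_num) (by positivity)
    have h1 : ∑' _ : ℕ, (1 : ℝ≥0∞) ≤ ∑' j : ℕ, ENNReal.ofReal (2 ^ (η * (j + 1))) *
        (Iic (((2 : ℝ) ^ j)⁻¹)).indicator 1 r := ENNReal.tsum_le_tsum this
    rw [ENNReal.tsum_const_eq_top_of_ne_zero one_ne_zero, top_le_iff] at h1
    rw [h1]; exact le_top
  · have hex : ∃ j : ℕ, ((2 : ℝ) ^ (j + 1))⁻¹ < r := by
      obtain ⟨j, hj⟩ := pow_unbounded_of_one_lt (1 / r) (by norm_num : (1 : ℝ) < 2)
      refine ⟨j, ?_⟩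
      rw [inv_lt_comm₀ (by positivity) h0]
      rw [one_div] at hj
      calc r⁻¹ < 2 ^ j := hj
        _ ≤ 2 ^ (j + 1) := pow_le_pow_right₀ (by norm_num) (by omega)
    classical
    set j := Nat.find hex with hj
    have hj1 : ((2 : ℝ) ^ (j + 1))⁻¹ < r := Nat.find_spec hex
    have hj2 : r ≤ ((2 : ℝ) ^ j)⁻¹ := by
      rcases Nat.eq_zero_or_pos j with h | h
      · rw [h]; simpa using hr1
      · have := Nat.find_min hex (m := j - 1) (by omega)
        rw [not_lt] at this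
        have e : j - 1 + 1 = j := by omega
        rw [e] at this
        exact this
    refine le_trans ?_ (ENNReal.le_tsum j)
    rw [indicator_of_mem (by exact hj2), Pi.one_apply, mul_one,
      ENNReal.ofReal_rpow_of_pos h0]
    apply ENNReal.ofReal_le_ofReal
    calc r ^ (-η) ≤ (((2 : ℝ) ^ (j + 1))⁻¹) ^ (-η) :=
          Real.rpow_le_rpow_of_nonpos (by positivity) hj1.le (by linarith)
      _ = 2 ^ (η * (j + 1)) := by
          rw [← Real.rpow_natCast, ← Real.rpow_neg (by norm_num), ← Real.rpow_mul (by norm_num)]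
          congr 1; push_cast; ring

/-- negative moments of the component -/
lemma moment (m k : ℕ) (hmk : 0 < m + k) (η : ℝ) (hη : 0 ≤ η) (hηk : η < k) :
    ∃ C : ℝ≥0∞, C ≠ ∞ ∧ ∀ (ι : E m →ₗᵢ[ℝ] E (m + k)) (κ : E k →ₗᵢ[ℝ] E (m + k)),
      (∀ y w, ⟪ι y, κ w⟫ = 0) →
      ∫⁻ x, (ENNReal.ofReal ‖cp κ x‖) ^ (-η) ∂(sg (m + k)) ≤ C := by
  set q : ℝ := (2 : ℝ) ^ (η - k) with hq
  have hq0 : 0 ≤ q := by positivity
  have hq1 : q < 1 := Real.rpow_lt_one_of_one_lt_of_neg (by norm_num) (by linarith)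
  refine ⟨∑' j : ℕ, ENNReal.ofReal (4 ^ (m + k) * 2 ^ η * q ^ j), ?_, ?_⟩
  · rw [← ENNReal.ofReal_tsum_of_nonneg (fun j => by positivity)
      ((summable_geometric_of_lt_one hq0 hq1).mul_left _)]
    exact ENNReal.ofReal_ne_top
  · intro ι κ h
    have hc := cont_cp κ
    have hms : ∀ j : ℕ, MeasurableSet {x : E (m + k) | ‖cp κ x‖ ≤ ((2 : ℝ) ^ j)⁻¹} := fun j =>
      (isClosed_le hc.norm continuous_const).measurableSet
    calc ∫⁻ x, (ENNReal.ofReal ‖cp κ x‖) ^ (-η) ∂(sg (m + k))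
        ≤ ∫⁻ x, ∑' j : ℕ, ({x : E (m + k) | ‖cp κ x‖ ≤ ((2 : ℝ) ^ j)⁻¹}.indicator
            (fun _ => ENNReal.ofReal (2 ^ (η * (j + 1)))) x) ∂(sg (m + k)) := by
          apply lintegral_mono_ae
          filter_upwards [Pool.Agent.H789R2.FR.sg_ae (m + k)] with x hx
          have h1 : ‖cp κ x‖ ≤ 1 := (norm_cp_le κ x).trans hx.le
          refine (layer η ‖cp κ x‖ hη (norm_nonneg _) h1).trans_eq ?_
          congr 1
          funext j
          by_cases h2 : ‖cp κ x‖ ≤ ((2 : ℝ) ^ j)⁻¹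
          · rw [indicator_of_mem (by exact h2), indicator_of_mem (by exact h2)]
            simp
          · rw [indicator_of_notMem (by exact h2), indicator_of_notMem (by exact h2)]
            simp
      _ = ∑' j : ℕ, ∫⁻ x, ({x : E (m + k) | ‖cp κ x‖ ≤ ((2 : ℝ) ^ j)⁻¹}.indicator
            (fun _ => ENNReal.ofReal (2 ^ (η * (j + 1)))) x) ∂(sg (m + k)) := by
          apply lintegral_tsum
          intro j
          exact (measurable_const.indicator (hms j)).aemeasurable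
      _ ≤ ∑' j : ℕ, ENNReal.ofReal (4 ^ (m + k) * 2 ^ η * q ^ j) := by
          apply ENNReal.tsum_le_tsum
          intro j
          rw [lintegral_indicator_const (hms j)]
          calc ENNReal.ofReal (2 ^ (η * (j + 1))) *
              sg (m + k) {x | ‖cp κ x‖ ≤ ((2 : ℝ) ^ j)⁻¹}
              ≤ ENNReal.ofReal (2 ^ (η * (j + 1))) *
                ENNReal.ofReal (4 ^ (m + k) * (((2 : ℝ) ^ j)⁻¹) ^ k) := by
                gcongr
                exact sg_slab ι κ h hmk _ (by positivity)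
            _ = ENNReal.ofReal (4 ^ (m + k) * 2 ^ η * q ^ j) := by
                rw [← ENNReal.ofReal_mul (by positivity)]
                congr 1
                have e1 : (((2 : ℝ) ^ j)⁻¹) ^ k = 2 ^ (-(k : ℝ) * j) := by
                  rw [← Real.rpow_natCast _ k, ← Real.rpow_natCast 2 j,
                    ← Real.rpow_neg (by norm_num : (0 : ℝ) ≤ 2),
                    ← Real.rpow_mul (by norm_num : (0 : ℝ) ≤ 2)]
                  congr 1; ring
                have e2 : q ^ j = 2 ^ ((η - k) * j) := by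
                  rw [hq, ← Real.rpow_natCast, ← Real.rpow_mul (by norm_num)]
                have e3 : (2 : ℝ) ^ (η * (j + 1)) * 2 ^ (-(k : ℝ) * j) =
                    2 ^ η * 2 ^ ((η - k) * j) := by
                  rw [← Real.rpow_add (by norm_num), ← Real.rpow_add (by norm_num)]
                  congr 1; ring
                rw [e1, e2]
                calc (2 : ℝ) ^ (η * (j + 1)) * (4 ^ (m + k) * 2 ^ (-(k : ℝ) * j)) =
                    4 ^ (m + k) * (2 ^ (η * (j + 1)) * 2 ^ (-(k : ℝ) * j)) := by ring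
                  _ = 4 ^ (m + k) * (2 ^ η * 2 ^ ((η - k) * j)) := by rw [e3]
                  _ = _ := by ring

theorem main : S_HOL := by
  intro m k hk hmk θ s hθ0 hθ1 hs hcond
  have hfin := Pool.Agent.H789R2.FR.sg_finite (m + k)
  rcases hθ0.eq_or_lt with h0 | h0
  · -- θ = 0
    subst h0
    set M : ℝ≥0∞ := (sg (m + k)) univ ^ (1 / (2 : ℝ≥0∞).toReal - 1 / s.toReal) with hM
    have hexp : 0 ≤ 1 / (2 : ℝ≥0∞).toReal - 1 / s.toReal := by
      rcases eq_or_ne s ∞ with rfl | hst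
      · simp
      · have h1 : (2 : ℝ≥0∞).toReal ≤ s.toReal := ENNReal.toReal_mono hst hs
        have h2 : (0 : ℝ) < (2 : ℝ≥0∞).toReal := by simp
        have := one_div_le_one_div_of_le h2 h1
        linarith
    have hMt : M ≠ ∞ := ENNReal.rpow_ne_top_of_nonneg hexp (measure_ne_top _ _)
    refine ⟨(M ^ 2).toNNReal, ?_⟩
    intro ι κ h ρ J hρ hadm f hf
    rw [ENNReal.coe_toNNReal (ENNReal.pow_ne_top hMt)]
    have hJ : J = 0 := by
      rcases hadm with ⟨_, h1⟩ | ⟨h1, _⟩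
      · exact h1
      · exact absurd h1 (lt_irrefl _)
    subst hJ
    have hW : ∀ x : E (m + k), Wr ρ 0 0 (cp κ x) = 1 := by
      intro x; unfold Wr; simp
    simp_rw [hW, ENNReal.ofReal_one, div_one]
    have h1 := eLpNorm_le_eLpNorm_mul_rpow_measure_univ hs hf
    have h2 : ∫⁻ x, ‖f x‖ₑ ^ 2 ∂(sg (m + k)) = eLpNorm f 2 (sg (m + k)) ^ 2 := by
      rw [eLpNorm_eq_lintegral_rpow_enorm_toReal two_ne_zero (by norm_num)]
      rw [← ENNReal.rpow_natCast, ← ENNReal.rpow_mul]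
      simp
    rw [h2]
    calc eLpNorm f 2 (sg (m + k)) ^ 2 ≤ (eLpNorm f s (sg (m + k)) * M) ^ 2 := by gcongr
      _ = M ^ 2 * eLpNorm f s (sg (m + k)) ^ 2 := by rw [mul_pow, mul_comm]
  · -- θ > 0
    have hcond' : θ < k * (1 - 2 * (s⁻¹).toReal) := hcond.resolve_left h0.ne'
    have hk0 : (0 : ℝ) < k := by exact_mod_cast hk
    obtain ⟨Cw, hCw, hwb⟩ := Wb.wb k θ hθ0 hθ1
    -- the reduction
    have hred : ∀ (κ : E k →ₗᵢ[ℝ] E (m + k)) (ρ : ℝ) (J : ℕ), 1 ≤ ρ → Adm ρ θ J →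
        ∀ f : E (m + k) → ℂ,
        ∫⁻ x, ‖f x‖ₑ ^ 2 / ENNReal.ofReal (Wr ρ θ J (cp κ x)) ∂(sg (m + k)) ≤
          ENNReal.ofReal Cw * ∫⁻ x, ‖f x‖ₑ ^ 2 * (ENNReal.ofReal ‖cp κ x‖) ^ (-θ)
            ∂(sg (m + k)) := by
      intro κ ρ J hρ hadm f
      rw [← lintegral_const_mul' _ _ ENNReal.ofReal_ne_top]
      apply lintegral_mono_ae
      filter_upwards [Pool.Agent.H789R2.FR.sg_ae (m + k)] with x hx
      have h1 : ‖cp κ x‖ ≤ 1 := (norm_cp_le κ x).trans hx.le
      have h2 := (hwb ρ J hρ hadm (cp κ x) h1).1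
      have h3 : (ENNReal.ofReal ‖cp κ x‖) ^ θ ≤
          ENNReal.ofReal Cw * ENNReal.ofReal (Wr ρ θ J (cp κ x)) := by
        rw [ENNReal.ofReal_rpow_of_nonneg (norm_nonneg _) hθ0, ← ENNReal.ofReal_mul hCw.le]
        exact ENNReal.ofReal_le_ofReal h2
      have h4 : (ENNReal.ofReal (Wr ρ θ J (cp κ x)))⁻¹ ≤
          ENNReal.ofReal Cw * ((ENNReal.ofReal ‖cp κ x‖) ^ θ)⁻¹ := by
        have h5 : (ENNReal.ofReal Cw * ENNReal.ofReal (Wr ρ θ J (cp κ x)))⁻¹ ≤
            ((ENNReal.ofReal ‖cp κ x‖) ^ θ)⁻¹ := ENNReal.inv_le_inv.mpr h3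
        have hc0 : ENNReal.ofReal Cw ≠ 0 := by
          rw [ne_eq, ENNReal.ofReal_eq_zero, not_le]; exact hCw
        rw [ENNReal.mul_inv (Or.inl hc0) (Or.inl ENNReal.ofReal_ne_top)] at h5
        calc (ENNReal.ofReal (Wr ρ θ J (cp κ x)))⁻¹ =
              ENNReal.ofReal Cw * ((ENNReal.ofReal Cw)⁻¹ *
                (ENNReal.ofReal (Wr ρ θ J (cp κ x)))⁻¹) := by
                rw [← mul_assoc, ENNReal.mul_inv_cancel hc0 ENNReal.ofReal_ne_top, one_mul]
          _ ≤ _ := by gcongr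
      rw [div_eq_mul_inv, ENNReal.rpow_neg]
      calc ‖f x‖ₑ ^ 2 * (ENNReal.ofReal (Wr ρ θ J (cp κ x)))⁻¹ ≤
            ‖f x‖ₑ ^ 2 * (ENNReal.ofReal Cw * ((ENNReal.ofReal ‖cp κ x‖) ^ θ)⁻¹) := by gcongr
        _ = _ := by ring
    rcases eq_or_ne s ∞ with rfl | hst
    · -- s = ∞
      have hθk : θ < k := by simpa using hcond'
      obtain ⟨C, hC, hmom⟩ := moment m k (by omega) θ hθ0 hθk
      refine ⟨(ENNReal.ofReal Cw * C).toNNReal, ?_⟩
      intro ι κ h ρ J hρ hadm f hf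
      rw [ENNReal.coe_toNNReal (ENNReal.mul_ne_top ENNReal.ofReal_ne_top hC)]
      refine (hred κ ρ J hρ hadm f).trans ?_
      rw [mul_assoc]
      gcongr
      calc ∫⁻ x, ‖f x‖ₑ ^ 2 * (ENNReal.ofReal ‖cp κ x‖) ^ (-θ) ∂(sg (m + k))
          ≤ ∫⁻ x, eLpNorm f ∞ (sg (m + k)) ^ 2 * (ENNReal.ofReal ‖cp κ x‖) ^ (-θ)
              ∂(sg (m + k)) := by
            apply lintegral_mono_ae
            filter_upwards [enorm_ae_le_eLpNormEssSup f (sg (m + k))] with x hx
            rw [eLpNorm_exponent_top]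
            gcongr
        _ = eLpNorm f ∞ (sg (m + k)) ^ 2 * ∫⁻ x, (ENNReal.ofReal ‖cp κ x‖) ^ (-θ)
              ∂(sg (m + k)) := by
            rw [lintegral_const_mul]
            exact ((cont_cp κ).norm.measurable.ennreal_ofReal).pow_const _
        _ ≤ eLpNorm f ∞ (sg (m + k)) ^ 2 * C := by gcongr; exact hmom ι κ h
        _ = C * eLpNorm f ∞ (sg (m + k)) ^ 2 := mul_comm _ _
    · -- s finite
      set r : ℝ := s.toReal with hr
      have hs0 : s ≠ 0 := by
        rintro rfl; simp at hs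
      have hinv : (s⁻¹).toReal = r⁻¹ := by rw [ENNReal.toReal_inv]
      rw [hinv] at hcond'
      have hr2' : 2 ≤ r := by
        have := ENNReal.toReal_mono hst hs
        simpa using this
      have hr0 : 0 < r := by linarith
      have hr2 : 2 < r := by
        rcases hr2'.eq_or_lt with h1 | h1
        · rw [← h1] at hcond'
          norm_num at hcond'
          linarith
        · exact h1
      set p : ℝ := r / 2 with hp
      have hp1 : 1 < p := by rw [hp]; linarith
      set q : ℝ := r / (r - 2) with hq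
      have hq0 : 0 < q := by rw [hq]; apply div_pos hr0; linarith
      have hpq : p.HolderConjugate q := by
        rw [Real.holderConjugate_iff]
        refine ⟨hp1, ?_⟩
        rw [hp, hq, inv_div, inv_div]
        field_simp
        ring
      have hη : θ * q < k := by
        rw [hq, ← mul_div_assoc, div_lt_iff₀ (by linarith)]
        have e : k * (1 - 2 * r⁻¹) * r = k * (r - 2) := by
          field_simp
        have := mul_lt_mul_of_pos_right hcond' hr0
        rw [e] at this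
        exact this
      obtain ⟨C, hC, hmom⟩ := moment m k (by omega) (θ * q) (by positivity) hη
      have hCq : C ^ (1 / q) ≠ ∞ := ENNReal.rpow_ne_top_of_nonneg (by positivity) hC
      refine ⟨(ENNReal.ofReal Cw * C ^ (1 / q)).toNNReal, ?_⟩
      intro ι κ h ρ J hρ hadm f hf
      rw [ENNReal.coe_toNNReal (ENNReal.mul_ne_top ENNReal.ofReal_ne_top hCq)]
      refine (hred κ ρ J hρ hadm f).trans ?_
      rw [mul_assoc]
      gcongr
      have hG : Measurable fun x : E (m + k) => (ENNReal.ofReal ‖cp κ x‖) ^ (-θ) :=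
        ((cont_cp κ).norm.measurable.ennreal_ofReal).pow_const _
      have hH := ENNReal.lintegral_mul_le_Lp_mul_Lq (sg (m + k)) hpq
        (f := fun x => ‖f x‖ₑ ^ 2) (g := fun x => (ENNReal.ofReal ‖cp κ x‖) ^ (-θ))
        (hf.enorm.pow_const 2) hG.aemeasurable
      have e1 : (∫⁻ x, (‖f x‖ₑ ^ 2) ^ p ∂(sg (m + k))) ^ (1 / p) =
          eLpNorm f s (sg (m + k)) ^ 2 := by
        rw [eLpNorm_eq_lintegral_rpow_enorm_toReal hs0 hst, ← hr]
        rw [← ENNReal.rpow_natCast (_ ^ (1 / r)) 2, ← ENNReal.rpow_mul]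
        congr 1
        · congr 1
          funext x
          rw [← ENNReal.rpow_natCast, ← ENNReal.rpow_mul]
          congr 1
          rw [hp]; push_cast; ring
        · rw [hp]; push_cast; field_simp
      have e2 : (∫⁻ x, ((ENNReal.ofReal ‖cp κ x‖) ^ (-θ)) ^ q ∂(sg (m + k))) ^ (1 / q) ≤
          C ^ (1 / q) := by
        apply ENNReal.rpow_le_rpow _ (by positivity)
        have : ∀ x : E (m + k), ((ENNReal.ofReal ‖cp κ x‖) ^ (-θ)) ^ q =
            (ENNReal.ofReal ‖cp κ x‖) ^ (-(θ * q)) := by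
          intro x
          rw [← ENNReal.rpow_mul]; congr 1; ring
        simp_rw [this]
        exact hmom ι κ h
      calc ∫⁻ x, ‖f x‖ₑ ^ 2 * (ENNReal.ofReal ‖cp κ x‖) ^ (-θ) ∂(sg (m + k))
          ≤ (∫⁻ x, (‖f x‖ₑ ^ 2) ^ p ∂(sg (m + k))) ^ (1 / p) *
            (∫⁻ x, ((ENNReal.ofReal ‖cp κ x‖) ^ (-θ)) ^ q ∂(sg (m + k))) ^ (1 / q) := hH
        _ ≤ eLpNorm f s (sg (m + k)) ^ 2 * C ^ (1 / q) := by
            rw [e1]; gcongr
        _ = C ^ (1 / q) * eLpNorm f s (sg (m + k)) ^ 2 := mul_comm _ _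

end Pool.Agent.N702.CY.Hol
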